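import Mathlib

/-!
Paths made of short monochromatic runs with pairwise distinct colours in an edge-coloured
linear order.
-/

set_option autoImplicit false

namespace Pool.Agent.FS.ShortRuns

variable {V : Type} [LinearOrder V]

/-- A run of colour `a` with one or two arcs from `u` to `w`. -/
def Step (c : V → V → ℕ) (a : ℕ) (u w : V) : Prop :=
  u < w ∧ (c u w = a ∨ ∃ m, u < m ∧ m < w ∧ c u m = a ∧ c m w = a)

/-- `w` is the end of a path from `s` made of `j` runs with distinct colours in `A`. -/
def Ex (c : V → V → ℕ) (s : V) (j : ℕ) (A : Finset ℕ) (w : V) : Prop :=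
  ∃ (p : ℕ → V) (a : ℕ → ℕ), p 0 = s ∧ p j = w ∧ (∀ i < j, Step c (a i) (p i) (p (i + 1))) ∧
    (∀ i < j, a i ∈ A) ∧ ∀ i < j, ∀ i' < j, a i = a i' → i = i'

theorem Ex.step {c : V → V → ℕ} {s : V} {j : ℕ} {A : Finset ℕ} {u w : V} {b : ℕ}
    (h : Ex c s j A u) (hb : b ∉ A) (hs : Step c b u w) : Ex c s (j + 1) (insert b A) w := by
  obtain ⟨p, a, h0, hj, hst, hA, hinj⟩ := h
  refine ⟨fun i => if i ≤ j then p i else w, fun i => if i < j then a i else b, by simp [h0],
    by simp, fun i hi => ?_, fun i hi => ?_, fun i hi i' hi' e => ?_⟩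
  · by_cases hij : i < j
    · have h1 : i ≤ j := hij.le
      have h2 : i + 1 ≤ j := hij
      simp only [hij, h1, h2, if_true]
      exact hst i hij
    · have h1 : i = j := by omega
      subst h1
      simp only [lt_irrefl, le_refl, if_true, if_false, Nat.not_succ_le_self]
      rw [hj]
      exact hs
  · by_cases hij : i < j
    · simp only [hij, if_true]
      exact Finset.mem_insert_of_mem (hA i hij)
    · simp only [hij, if_false]
      exact Finset.mem_insert_self _ _
  · by_cases hij : i < j <;> by_cases hij' : i' < j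
    · simp only [hij, hij', if_true] at e
      exact hinj i hij i' hij' e
    · simp only [hij, hij', if_true, if_false] at e
      exact absurd (e ▸ hA i hij) hb
    · simp only [hij, hij', if_true, if_false] at e
      exact absurd (e ▸ hA i' hij') hb
    · omega

/-- `w` is the end of an increasing path with `n` arcs of colour `a`. -/
def Mono (c : V → V → ℕ) (a n : ℕ) (w : V) : Prop :=
  ∃ p : ℕ → V, p n = w ∧ ∀ i < n, p i < p (i + 1) ∧ c (p i) (p (i + 1)) = a

theorem Mono.step {c : V → V → ℕ} {a n : ℕ} {u w : V} (h : Mono c a n u) (huw : u < w)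
    (hc : c u w = a) : Mono c a (n + 1) w := by
  obtain ⟨p, hn, hp⟩ := h
  refine ⟨fun i => if i ≤ n then p i else w, by simp, fun i hi => ?_⟩
  by_cases hin : i < n
  · have h1 : i ≤ n := hin.le
    have h2 : i + 1 ≤ n := hin
    simp only [h1, h2, if_true]
    exact hp i hin
  · have h1 : i = n := by omega
    subst h1
    simp only [le_refl, if_true, if_false, Nat.not_succ_le_self]
    rw [hn]
    exact ⟨huw, hc⟩

theorem exists_level {c : V → V → ℕ} {l : ℕ} (hm : ∀ a w, ¬ Mono c a l w) (a : ℕ) :
    ∃ g : V → ℕ, (∀ w, g w ∈ Finset.Icc 1 l) ∧ ∀ u w, u < w → c u w = a → g u < g w := by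
  classical
  have hex : ∀ w, ∃ n, ¬ Mono c a n w := fun w => ⟨l, hm a w⟩
  have h0 : ∀ w, Mono c a 0 w := fun w => ⟨fun _ => w, rfl, fun i hi => absurd hi (by omega)⟩
  refine ⟨fun w => Nat.find (hex w), fun w => ?_, fun u w huw hc => ?_⟩
  · rw [Finset.mem_Icc]
    refine ⟨?_, Nat.find_min' _ (hm a w)⟩
    rw [Nat.one_le_iff_ne_zero]
    intro e
    have e' : Nat.find (hex w) = 0 := e
    have := Nat.find_spec (hex w)
    rw [e'] at this
    exact this (h0 w)
  · show Nat.find (hex u) < Nat.find (hex w)
    rw [Nat.lt_find_iff]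
    intro m hmle
    rw [not_not]
    rcases m with _ | m
    · exact h0 w
    · have : ¬ ¬ Mono c a m u := Nat.find_min (hex u) (by omega)
      exact (not_not.1 this).step huw hc

/-- The state of the induction: `W` has no arc with a colour in `A`, and each of its vertices
ends a path on the colours `A` or has an arc of another colour from such a vertex. -/
def St (c : V → V → ℕ) (s : V) (j : ℕ) (A : Finset ℕ) (W : Finset V) : Prop :=
  (∀ u ∈ W, ∀ w ∈ W, u < w → c u w ∉ A) ∧
    ∀ w ∈ W, Ex c s j A w ∨ ∃ r, Ex c s j A r ∧ r < w ∧ c r w ∉ A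

theorem St.next {c : V → V → ℕ} {s : V} {j : ℕ} {A : Finset ℕ} {W S : Finset V} {r z : V}
    (h : St c s j A W) (hr : Ex c s j A r) (hrz : r < z) (ha : c r z ∉ A) (hz : z ∈ W)
    (hS : S ⊆ W) (hge : ∀ w ∈ S, z ≤ w) (hfree : ∀ u ∈ S, ∀ w ∈ S, u < w → c u w ≠ c r z) :
    St c s (j + 1) (insert (c r z) A) S := by
  have hzx : Ex c s (j + 1) (insert (c r z) A) z := hr.step ha ⟨hrz, Or.inl rfl⟩
  refine ⟨fun u hu w hw huw hc => ?_, fun w hw => ?_⟩
  · rcases Finset.mem_insert.1 hc with e | e
    · exact hfree u hu w hw huw e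
    · exact h.1 u (hS hu) w (hS hw) huw e
  · rcases (hge w hw).eq_or_lt with e | hlt
    · exact Or.inl (e ▸ hzx)
    · by_cases hc : c z w = c r z
      · exact Or.inl (hr.step ha ⟨hrz.trans hlt, Or.inr ⟨z, hrz, hlt, rfl, hc⟩⟩)
      · refine Or.inr ⟨z, hzx, hlt, fun hmem => ?_⟩
        rcases Finset.mem_insert.1 hmem with e | e
        · exact hc e
        · exact h.1 z hz w (hS hw) hlt e

theorem main {c : V → V → ℕ} {s : V} {l : ℕ} (hl : 0 < l) (hm : ∀ a w, ¬ Mono c a l w) :
    ∀ (d j : ℕ) (A : Finset ℕ) (W : Finset V), St c s j A W → l ^ d < W.card →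
      ∃ B w, Ex c s (j + d + 1) B w := by
  classical
  intro d
  induction d with
  | zero =>
    intro j A W h hc
    rw [pow_zero] at hc
    obtain ⟨u, hu, w, hw, hne⟩ := Finset.one_lt_card.1 hc
    have key : ∀ u ∈ W, ∀ w ∈ W, u < w → ∃ B w, Ex c s (j + 0 + 1) B w := by
      intro u hu w hw huw
      rcases h.2 u hu with e | ⟨r, hr, hru, hc⟩
      · exact ⟨_, _, e.step (h.1 u hu w hw huw) ⟨huw, Or.inl rfl⟩⟩
      · exact ⟨_, _, hr.step hc ⟨hru, Or.inl rfl⟩⟩
    rcases lt_or_gt_of_ne hne with e | e
    · exact key u hu w hw e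
    · exact key w hw u hu e
  | succ d ih =>
    intro j A W h hc
    have hpos : 0 < l ^ (d + 1) := pow_pos hl _
    have hne : W.Nonempty := Finset.card_pos.1 (by omega)
    have hz : W.min' hne ∈ W := W.min'_mem hne
    have hzle : ∀ w ∈ W, W.min' hne ≤ w := fun w hw => W.min'_le w hw
    generalize W.min' hne = z at hz hzle
    have pig : ∀ g : V → ℕ, (∀ w, g w ∈ Finset.Icc 1 l) →
        ∃ y, l ^ d < (W.filter fun w => g w = y).card := by
      intro g hg
      obtain ⟨y, -, hy⟩ := Finset.exists_lt_card_fiber_of_mul_lt_card_of_maps_to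
        (s := W) (t := Finset.Icc 1 l) (f := g) (n := l ^ d) (fun w _ => hg w)
        (by rw [Nat.card_Icc, Nat.add_sub_cancel, ← pow_succ']; exact hc)
      exact ⟨y, hy⟩
    have fin : ∀ (B : Finset ℕ) (S : Finset V), St c s (j + 1) B S → l ^ d < S.card →
        ∃ B w, Ex c s (j + (d + 1) + 1) B w := by
      intro B S hS hcard
      have := ih (j + 1) B S hS hcard
      rwa [show j + 1 + d + 1 = j + (d + 1) + 1 by omega] at this
    rcases h.2 z hz with hx | ⟨r, hr, hrz, ha⟩
    · have hne' : (W.erase z).Nonempty := by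
        rw [← Finset.card_pos, Finset.card_erase_of_mem hz]
        omega
      have hy : (W.erase z).min' hne' ∈ W.erase z := Finset.min'_mem _ hne'
      have hyle : ∀ w ∈ W.erase z, (W.erase z).min' hne' ≤ w :=
        fun w hw => Finset.min'_le _ w hw
      generalize (W.erase z).min' hne' = y at hy hyle
      have hyW : y ∈ W := Finset.mem_of_mem_erase hy
      have hzy : z < y := lt_of_le_of_ne (hzle y hyW) (Finset.ne_of_mem_erase hy).symm
      have ha : c z y ∉ A := h.1 z hz y hyW hzy
      obtain ⟨g, hg, hmon⟩ := exists_level hm (c z y)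
      obtain ⟨t, ht⟩ := pig g hg
      have hgzy : g z < g y := hmon z y hzy rfl
      by_cases hzt : g z = t
      · have hzS : z ∈ W.filter fun w => g w = t := Finset.mem_filter.2 ⟨hz, hzt⟩
        have hyS : y ∉ (W.filter fun w => g w = t).erase z := by
          intro hmem
          have := (Finset.mem_filter.1 (Finset.mem_of_mem_erase hmem)).2
          omega
        have hmem : ∀ w ∈ insert y ((W.filter fun w => g w = t).erase z),
            w = y ∨ (w ∈ W.erase z ∧ g w = t) := by
          intro w hw
          rcases Finset.mem_insert.1 hw with e | e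
          · exact Or.inl e
          · have h1 := Finset.mem_filter.1 (Finset.mem_of_mem_erase e)
            exact Or.inr ⟨Finset.mem_erase.2 ⟨Finset.ne_of_mem_erase e, h1.1⟩, h1.2⟩
        refine fin _ (insert y ((W.filter fun w => g w = t).erase z))
          (h.next hx hzy ha hyW (fun w hw => ?_) (fun w hw => ?_) fun u hu w hw huw e => ?_) ?_
        · rcases hmem w hw with e | e
          · exact e ▸ hyW
          · exact Finset.mem_of_mem_erase e.1
        · rcases hmem w hw with e | e
          · exact e.ge
          · exact hyle w e.1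
        · have h1 := hmon u w huw e
          rcases hmem u hu with e1 | e1 <;> rcases hmem w hw with e2 | e2
          · rw [e1, e2] at huw
            exact lt_irrefl _ huw
          · rw [e1] at h1
            omega
          · rw [e2] at huw
            exact absurd (hyle u e1.1) (not_le.2 huw)
          · omega
        · rw [Finset.card_insert_of_notMem hyS, Finset.card_erase_of_mem hzS]
          omega
      · refine fin _ (W.filter fun w => g w = t)
          (h.next hx hzy ha hyW (Finset.filter_subset _ _) (fun w hw => ?_)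
            fun u hu w hw huw e => ?_) ht
        · have h1 := Finset.mem_filter.1 hw
          refine hyle w (Finset.mem_erase.2 ⟨fun e => hzt ?_, h1.1⟩)
          rw [← e]
          exact h1.2
        · have h1 := hmon u w huw e
          have h2 := (Finset.mem_filter.1 hu).2
          have h3 := (Finset.mem_filter.1 hw).2
          omega
    · obtain ⟨g, hg, hmon⟩ := exists_level hm (c r z)
      obtain ⟨t, ht⟩ := pig g hg
      refine fin _ (W.filter fun w => g w = t)
        (h.next hr hrz ha hz (Finset.filter_subset _ _)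
          (fun w hw => hzle w (Finset.mem_filter.1 hw).1) fun u hu w hw huw e => ?_) ht
      have h1 := hmon u w huw e
      have h2 := (Finset.mem_filter.1 hu).2
      have h3 := (Finset.mem_filter.1 hw).2
      omega

end Pool.Agent.FS.ShortRuns
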